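import Pool.Agent.Lib.MP_28303a_al.NT.ER.Defs
import Pool.Agent.Lib.MP_28303a_al.NT.H78.Regb

/-! # Row YR: the sums of the values at the edges have finite resolutions -/

set_option autoImplicit false
set_option linter.unusedSectionVars false

namespace Pool.Agent.NegK.NT.ER

universe u

open CategoryTheory Limits Opposite
open Pool.Agent.NegK.TW

namespace H94

section semi

variable {k : Type u} [Ring k] {B B' : Type u} [Category.{u} B] [Category.{u} B']

/-- Transport of finitely presented values. -/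
theorem fp_semi {M : H78.Fn k B} {M' : H78.Fn k B'} {U : B} {U' : B'}
    (φ : (End U)ᵐᵒᵖ ≃* (End U')ᵐᵒᵖ) (e : H78.Val M U ≃ₗ[k] H78.Val M' U')
    (he : ∀ (a : End U) (x : H78.Val M U), e (H78.res M a x) =
      H78.res M' (φ (MulOpposite.op a)).unop (e x))
    (hR : H78.RC (H78.Rg k U)) (h : Module.FinitePresentation (H78.Rg k U) (H78.Val M U)) :
    Module.FinitePresentation (H78.Rg k U') (H78.Val M' U') := by
  obtain ⟨d, hd⟩ := H78.exists_res hR (H78.Val M U)
  let ψ : H78.Rg k U ≃+* H78.Rg k U' := MonoidAlgebra.mapDomainRingEquiv k φ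
  let σ : H78.Rg k U →+* H78.Rg k U' := ψ
  let σ' : H78.Rg k U' →+* H78.Rg k U := ψ.symm
  let i1 : RingHomInvPair σ σ' := RingHomInvPair.of_ringEquiv ψ
  let i2 : RingHomInvPair σ' σ := RingHomInvPair.of_ringEquiv ψ.symm
  let f : H78.Val M U ≃ₛₗ[σ] H78.Val M' U' :=
    { toFun := e
      invFun := e.symm
      left_inv := e.symm_apply_apply
      right_inv := e.apply_symm_apply
      map_add' := map_add e
      map_smul' := fun a x => by
        induction a using MonoidAlgebra.induction_linear with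
        | zero => rw [zero_smul, map_zero, map_zero, zero_smul]
        | add a b ha hb => rw [add_smul, map_add, ha, hb, map_add, add_smul]
        | single a r =>
          induction a using MulOpposite.rec' with
          | h a =>
            have h1 : σ (MonoidAlgebra.single (MulOpposite.op a) r) =
                MonoidAlgebra.single (φ (MulOpposite.op a)) r :=
              MonoidAlgebra.mapDomain_single
            have h2 : (MonoidAlgebra.single (φ (MulOpposite.op a)) r : H78.Rg k U') • e x =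
                r • H78.res M' (φ (MulOpposite.op a)).unop (e x) :=
              H78.single_smul M' U' (φ (MulOpposite.op a)).unop r (e x)
            rw [H78.single_smul, map_smul, he, h1, h2] }
  exact H78.HasFPRes.fp (TW.H89.hasFPRes_semi σ σ' d _ _ f hd)

end semi

section yy

variable {k : Type u} [Ring k] {Γ : Type u} [Group Γ] {B C : Type u} [MulAction Γ B]
  [MulAction Γ C] {P : Pre Γ B} {Q : Pre Γ C}

theorem yy_zero (q : Dfib Q P) (N N' : Fn k Q) : (yy (k := k) q).map (0 : N ⟶ N') = 0 := by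
  refine NatTrans.ext (funext fun U => ModuleCat.hom_ext (y_ext q N fun c x => ?_))
  show yL q (0 : N ⟶ N') U.unop.pt (yl q N c x) = 0
  rw [yL_yl]
  exact map_zero _

theorem yy_isZero (q : Dfib Q P) {N : Fn k Q} (h : IsZero N) : IsZero ((yy (k := k) q).obj N) := by
  rw [IsZero.iff_id_eq_zero]
  have h1 : (𝟙 N) = 0 := h.eq_of_src _ _
  rw [← (yy (k := k) q).map_id, h1, yy_zero]

/-- Direct images of functors of finite support with finitely presented values have finite
resolutions. -/
theorem yy_rsl (hG : GoodStatement.{u}) (hY : YsStatement.{u}) (q : Dfib Q P)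
    (hF : H78.Fin0 Q) (hR : ∀ U : Bx Q, H78.RC (H78.Rg k U)) (N : Fn k Q)
    (hN : H78.FPV (k := k) (B := Bx Q) N) : Rsl ((yy (k := k) q).obj N) := by
  obtain ⟨h1, h2, h3, h4, h5, h6⟩ := hG k Γ B P
  obtain ⟨y1, y2⟩ := hY k Γ B C P Q q
  have hΦ : H78.Good (fun N : H78.Fn k (Bx Q) => Rsl ((yy (k := k) q).obj N)) :=
    { left := fun S hS a b => by
        obtain ⟨w, hw⟩ := y1 S hS
        exact h1 _ hw a b
      mid := fun S hS a b => by
        obtain ⟨w, hw⟩ := y1 S hS
        exact h2 _ hw a b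
      right := fun S hS a b => by
        obtain ⟨w, hw⟩ := y1 S hS
        exact h3 _ hw a b
      iso := fun M N e h => e.elim fun e => h5 _ _ ⟨(yy (k := k) q).mapIso e⟩ h
      zero := fun M h => h4 _ (yy_isZero q h)
      rep := fun n U M hM => by
        obtain ⟨ρ⟩ := hM
        obtain ⟨e'⟩ := y2 n U
        obtain ⟨A, hA, ⟨e⟩⟩ := H78.exists_iso_ev (k := k) n (Bx.of (q.φ U.pt) : Bx P)
        have ρ' := ρ.map (yy (k := k) q)
        exact h6 _ A hA ⟨⟨ρ'.i ≫ (e' ≪≫ e).hom, (e' ≪≫ e).inv ≫ ρ'.r, by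
          rw [Category.assoc, Iso.hom_inv_id_assoc, ρ'.retract]⟩⟩ }
  exact H78.Good.all (H78.ei hF) hR hΦ N hN

end yy

section flags

variable {Γ : Type u} [Group Γ] {T : Sys Γ} {D : T.Tr} {j : Fin T.m} [MulAction Γ (D.V j)]
  [MulAction Γ (D.E j)] (K : Mk D j)

theorem fin0_sub {B : Type u} [MulAction Γ B] {P : Pre Γ B} (h : H78.Fin0 P)
    (W : SubMulAction Γ B) : H78.Fin0 (sub P W) where
  antisymm _ _ hxy hyx := Subtype.ext (h.antisymm _ _ hxy hyx)
  finite y := (h.finite y.1).preimage (f := fun x : W => x.1) Subtype.val_injective.injOn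

include K in
theorem fl_mem (p : Fl D j) : p.1.2 ∈ nv K := by
  intro v hv
  rw [p.2] at hv
  exact K.ed_vt _ _ hv

include K in
/-- A flag is determined by its box and its end. -/
theorem fl_ext {p q : Fl D j} (h1 : p.1.2 = q.1.2) (h2 : p.1.1.2 = q.1.1.2) : p = q := by
  have h3 : p.1.1.1 = q.1.1.1 := K.ed_inj (by rw [← p.2, ← q.2, h1])
  exact Subtype.ext (Prod.ext (Prod.ext h3 h2) h1)

theorem fl_smul_box (g : Γ) (p : Fl D j) : letI := flAct K; (g • p).1.2 = g • p.1.2 := rfl

theorem fl_smul_end (g : Γ) (p : Fl D j) : letI := flAct K; (g • p).1.1.2 = p.1.1.2 := rfl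

theorem fl_stab (p : Fl D j) :
    (letI := flAct K; MulAction.stabilizer Γ p) = MulAction.stabilizer Γ p.1.2 := by
  let := flAct K
  ext g
  rw [MulAction.mem_stabilizer_iff, MulAction.mem_stabilizer_iff]
  constructor
  · intro h
    rw [← fl_smul_box K, h]
  · intro h
    exact fl_ext K h (fl_smul_end K g p)

theorem fl_fin0 : letI := flAct K; H78.Fin0 (flP K) := by
  let := flAct K
  have hF := H78.fin0 T K.fin
  exact
    { antisymm := fun p q h h' => Subtype.ext (Prod.ext h.1 (hF.antisymm _ _ h.2 h'.2))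
      finite := fun q => by
        refine Set.Finite.of_finite_image (f := fun p : Fl D j => p.1.2)
          ((hF.finite q.1.2).subset ?_) ?_
        · rintro _ ⟨p, hp, rfl⟩
          exact hp.2
        · intro p hp p' hp' h
          exact fl_ext K h (by rw [hp.1, hp'.1]) }

end flags

end H94

/-- **Row YR.** -/
theorem yr (hG : GoodStatement.{u}) (hY : YsStatement.{u}) : YrStatement.{u} := by
  intro Γ _ T D j _ _ K hst k _ hk M hM
  let := flAct K
  have hF := H78.fin0 T K.fin
  have hFs := H94.fin0_sub hF (nv K)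
  have hFl := H94.fl_fin0 K
  have hRs : ∀ U : Bx (sub (T.P Finset.univ) (nv K)), H78.RC (H78.Rg k U) := fun U =>
    H78.rc_end hFs U (by
      have h1 : MulAction.stabilizer Γ U.pt = MulAction.stabilizer Γ (U.pt : T.Box) :=
        SubMulAction.stabilizer_of_subMul U.pt
      rw [h1]
      exact hst _ U.pt.2 k hk)
  have hRl : ∀ U : Bx (flP K), H78.RC (H78.Rg k U) := fun U =>
    H78.rc_end hFl U (by
      rw [H94.fl_stab K U.pt]
      exact hst _ (H94.fl_mem K U.pt) k hk)
  refine H94.yy_rsl hG hY (flq K) hFl hRl _ ⟨?_, ?_⟩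
  · classical
    obtain ⟨S, hS⟩ := hM.supp
    have hfin : ∀ V : T.Box, {q : Fl D j | q.1.2 = V}.Finite := fun V => by
      refine Set.Finite.of_finite_image (f := fun p : Fl D j => p.1.1.2)
        (Set.toFinite _) ?_
      intro p hp p' hp' h
      exact H94.fl_ext K (Eq.trans hp (Eq.symm hp')) h
    refine ⟨S.biUnion fun c => (hfin (c.out.pt : T.Box)).toFinset.image fun q =>
      H78.cl (Bx.of q : Bx (flP K)), fun U hU => ?_⟩
    let V : Bx (sub (T.P Finset.univ) (nv K)) := Bx.of ⟨U.pt.1.2, H94.fl_mem K U.pt⟩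
    have hV : Nontrivial (H78.Val ((pb k (inc (T.P Finset.univ) (nv K))).obj M) V) := hU
    have hc := hS V hV
    obtain ⟨ε⟩ := H78.cl_eq.1 (Quotient.out_eq (H78.cl V))
    rw [Finset.mem_biUnion]
    refine ⟨H78.cl V, hc, ?_⟩
    rw [Finset.mem_image]
    let g : Γ := Bx.el ε.hom
    have hg1 : (T.P Finset.univ).le ((H78.cl V).out.pt : T.Box) (g • U.pt.1.2) := Bx.le_el ε.hom
    have hg2 : (T.P Finset.univ).le (g • U.pt.1.2) ((H78.cl V).out.pt : T.Box) := by
      have h1 : (T.P Finset.univ).le U.pt.1.2 (Bx.el ε.inv • ((H78.cl V).out.pt : T.Box)) :=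
        Bx.le_el ε.inv
      have h2 := (T.P Finset.univ).smul g h1
      have h3 : g * Bx.el ε.inv = 1 := by
        have h4 := congrArg Bx.el ε.hom_inv_id
        rwa [Bx.el_comp, Bx.el_id] at h4
      rwa [smul_smul, h3, one_smul] at h2
    have hg := hF.antisymm _ _ hg1 hg2
    refine ⟨g • U.pt, ?_, ?_⟩
    · rw [Set.Finite.mem_toFinset]
      exact hg.symm
    · rw [H78.cl_eq]
      exact ⟨⟨Bx.mk' g ((flP K).refl _), Bx.mk' g⁻¹ (by
          show (flP K).le U.pt (g⁻¹ • g • U.pt)
          rw [inv_smul_smul]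
          exact (flP K).refl _), Bx.hom_ext (mul_inv_cancel _), Bx.hom_ext (inv_mul_cancel _)⟩⟩
  · intro U
    let V : Bx (sub (T.P Finset.univ) (nv K)) := Bx.of ⟨U.pt.1.2, H94.fl_mem K U.pt⟩
    have hV : ∀ a : End V, Bx.el (a : V ⟶ V) • U.pt.1.2 = U.pt.1.2 := fun a =>
      congrArg Subtype.val (H78.end_fix hFs a)
    have hU : ∀ a : End U, Bx.el (a : U ⟶ U) • U.pt = U.pt := fun a => H78.end_fix hFl a
    let φ : (End V)ᵐᵒᵖ ≃* (End U)ᵐᵒᵖ :=
      { toFun := fun a => MulOpposite.op (Bx.mk' (Bx.el (a.unop : V ⟶ V)) (by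
          rw [H94.fl_ext K (p := Bx.el (a.unop : V ⟶ V) • U.pt) (q := U.pt) (hV _) rfl]
          exact (flP K).refl _) : U ⟶ U)
        invFun := fun a => MulOpposite.op (Bx.mk' (Bx.el (a.unop : U ⟶ U)) (by
          show (T.P Finset.univ).le U.pt.1.2 (Bx.el (a.unop : U ⟶ U) • U.pt.1.2)
          rw [← H94.fl_smul_box K, hU]
          exact (T.P Finset.univ).refl _) : V ⟶ V)
        left_inv := fun a => rfl
        right_inv := fun a => rfl
        map_mul' := fun a b => rfl }
    exact H94.fp_semi (M := (pb k (inc (T.P Finset.univ) (nv K))).obj M) (U := V) φ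
      (LinearEquiv.refl k _) (fun a x => rfl) (hRs V) (hM.fp V)

end Pool.Agent.NegK.NT.ER
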